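import Pool.Agent.Helper51.BernDefs
import Pool.Agent.Helper51.BernProof

open Pool.Agent.Helper51.Bern

namespace Pool.Agent.Results.MP_6eafb7_an.FullAnswer

theorem result : ∀ n : ℕ, 1 ≤ n → ∀ x : ℝ,
    (∀ k : ℕ, 1 ≤ 2 * k → 2 * k ≤ n → 0 < alpha n k x) ∧
    (∀ k : ℕ, 2 * k ≤ n - 1 → 0 < beta n k x) :=
  main

end Pool.Agent.Results.MP_6eafb7_an.FullAnswer
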